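import Pool.Agent.MWLE.StmtsB

/-!
# MWLE, row PEN (MP_23468a_al): the light end pentagon
-/

set_option autoImplicit false

namespace Pool.Agent.MWLE.H62

open Pool.Agent.Helper14_MV Pool.Agent.Helper2_MV Pool.Agent.MWLE
open Pool.Agent.MWK (pre Gw)
open Pool.Agent.MWF (Ap gaml dbl le_gaml gaml_keep RR_gaml pent)
open Pool.Agent.MWGN (nn Gz E0 P0 A0 Tau gh)

theorem kk_keep {β : FIC} {σ : List ℕ} {m e : ℕ} {u v : List ℕ} (h : RR β u v)
    (hu : KK β σ m e u) : KK β σ m e v := by
  have h1 : RR β (u.flatMap (psi e)) (v.flatMap (psi e)) := h.sub _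
  exact β.trans h1.symm hu

/-- the doubled letter `0` -/
def dz (c : ℕ) : List ℕ := if c = 0 then [0, 0] else [c]

theorem dz_id : ∀ l : List ℕ, 0 ∉ l → l.flatMap dz = l
  | [], _ => rfl
  | a :: l, h => by
    have ha : a ≠ 0 := fun h' => h (by rw [h']; exact List.mem_cons_self)
    rw [List.flatMap_cons, dz_id l (fun h' => h (List.mem_cons_of_mem _ h'))]
    simp [dz, ha]

theorem zero_cp (s k : ℕ) : 0 ∉ cp s k := by
  intro h
  unfold cp at h
  rw [List.mem_flatMap] at h
  obtain ⟨i, _, h⟩ := h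
  simp only [List.mem_cons, List.not_mem_nil, or_false, pin, con] at h
  omega

theorem zero_tl (σ : List ℕ) : 0 ∉ tl σ := by
  intro h
  unfold tl at h
  rw [List.mem_flatMap] at h
  obtain ⟨i, _, h⟩ := h
  simp only [List.mem_cons, List.not_mem_nil, or_false, pin, sep] at h
  omega

theorem zero_N0 (m : ℕ) : 0 ∉ N0 m := by
  intro h
  unfold N0 at h
  simp only [List.mem_cons, pin, con] at h
  rcases h with h | h | h | h | h
  · omega
  · omega
  · omega
  · omega
  · exact zero_cp _ _ h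

theorem zero_Nx (m : ℕ) (g : Bool) : 0 ∉ Nx m g := by
  intro h
  unfold Nx at h
  rcases List.mem_cons.1 h with h | h
  · simp only [con] at h; omega
  rcases List.mem_cons.1 h with h | h
  · simp only [con] at h; omega
  rcases List.mem_append.1 h with h | h
  · cases g
    · simp at h
    · simp at h
  rcases List.mem_cons.1 h with h | h
  · simp only [pin] at h; omega
  rcases List.mem_cons.1 h with h | h
  · omega
  rcases List.mem_append.1 h with h | h
  · exact zero_cp _ _ h
  · simp only [List.mem_cons, List.not_mem_nil, or_false, pin] at h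
    omega

/-- `0 u 0 ~ 0 u 0 0` -/
theorem gm' {β : FIC} (hG : Gz β) (u : List ℕ) : RR β (0 :: (u ++ [0])) (0 :: (u ++ [0, 0])) := by
  have h := hG.gw.gm.sub (fun c => if c = 0 then [0] else u)
  simpa using h

theorem wd_sub (σ : List ℕ) (m : ℕ) (g : Bool) : (wd σ m false g).flatMap dz =
    (N0 m ++ [0]) ++ ((0 :: (Nx m g ++ [0, 0])) ++ tl σ) := by
  unfold wd wb
  rw [List.flatMap_append, List.flatMap_append, List.flatMap_append, List.flatMap_append,
    dz_id _ (zero_N0 m), dz_id _ (zero_Nx m g), dz_id _ (zero_tl σ)]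
  simp [dz]

theorem wd_true (σ : List ℕ) (m : ℕ) (g : Bool) : wd σ m true g =
    (N0 m ++ [0]) ++ ((0 :: (Nx m g ++ [0])) ++ tl σ) := by
  unfold wd wb
  simp

theorem pen (hC : ClcStmt) (hS : SigStmt) (hX : CpxStmt) (hL : LerStmt) : PenStmt := by
  intro β hM hG hE hF m τ hT hB
  by_contra hLE
  obtain ⟨σ, hσ⟩ := hS τ m hT
  have hc := fun f p q => hC β hG hE hF σ τ m hT hσ hB hLE f p q
  obtain ⟨K, hKd⟩ : ∃ K : List ℕ → Prop, K = fun w => KK β σ m 1 w ∧ KK β σ m 0 w := ⟨_, rfl⟩
  have bK : β ≤ gaml K := le_gaml fun u v h hu => by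
    rw [hKd] at hu ⊢
    exact ⟨kk_keep h hu.1, kk_keep h hu.2⟩
  have bσ : β ≤ gaml (KK β σ m 1) := le_gaml fun u v h hu => kk_keep h hu
  have bτ : β ≤ gaml (KK β σ m 0) := le_gaml fun u v h hu => kk_keep h hu
  have bρ : β ≤ FIC.inf (gaml K) (gaml (KK β σ m 0)) := fun u v h => ⟨bK u v h, bτ u v h⟩
  have s1 : RR (gaml (KK β σ m 1)) (wd σ m false false) (wd σ m false true) :=
    RR_gaml fun f p q => by
      rw [List.append_assoc, List.append_assoc]
      exact (hc f p q).1
  have s2 : RR (gaml (KK β σ m 1)) (wd σ m true false) (wd σ m true true) := by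
    have h := s1.sub dz
    have e : ∀ g : Bool, RR (gaml (KK β σ m 1)) (wd σ m true g) ((wd σ m false g).flatMap dz) := by
      intro g
      rw [wd_sub, wd_true]
      apply bσ
      exact (RR.refl (β := β) _).append ((gm' hG _).append (RR.refl _))
    exact FIC.trans _ (e false) (FIC.trans _ h (e true).symm)
  have t1 : RR (gaml (KK β σ m 0)) (wd σ m false false) (wd σ m true false) :=
    RR_gaml fun f p q => by
      rw [List.append_assoc, List.append_assoc]
      exact (hc f p q).2.1 false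
  have t2 : RR (gaml (KK β σ m 0)) (wd σ m false true) (wd σ m true true) :=
    RR_gaml fun f p q => by
      rw [List.append_assoc, List.append_assoc]
      exact (hc f p q).2.1 true
  have r1 : RR (gaml K) (wd σ m false true) (wd σ m true true) :=
    RR_gaml fun f p q => by
      rw [hKd, List.append_assoc, List.append_assoc]
      exact (hc f p q).2.2
  have r2 : RR (FIC.inf (gaml K) (gaml (KK β σ m 0))) (wd σ m false true) (wd σ m true true) :=
    ⟨r1, t2⟩
  have hs : RR (FIC.sup (FIC.inf (gaml K) (gaml (KK β σ m 0))) (gaml (KK β σ m 1)))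
      (wd σ m false false) (wd σ m true false) := by
    have a1 := FIC.le_sup_right (FIC.inf (gaml K) (gaml (KK β σ m 0))) (gaml (KK β σ m 1)) _ _ s1
    have a2 := FIC.le_sup_left (FIC.inf (gaml K) (gaml (KK β σ m 0))) (gaml (KK β σ m 1)) _ _ r2
    have a3 := FIC.le_sup_right (FIC.inf (gaml K) (gaml (KK β σ m 0))) (gaml (KK β σ m 1)) _ _ s2
    exact FIC.trans _ a1 (FIC.trans _ a2 (FIC.symm _ a3))
  have hle : FIC.inf (gaml K) (gaml (KK β σ m 0)) ≤ gaml (KK β σ m 0) := fun u v h => h.2
  have hw : K (wd σ m false false) := by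
    rw [hKd]
    exact ⟨RR.refl _, RR.refl _⟩
  have h3 := pent hM bρ bσ bτ hle (P := K) (fun u v h hu => (gaml_keep h.1).1 hu)
    (fun u v hσ hτ hu => by
      rw [hKd] at hu ⊢
      exact ⟨(gaml_keep hσ).1 hu.1, (gaml_keep hτ).1 hu.2⟩) hs t1 hw
  rw [hKd] at h3
  have h4 : RR β ((wd σ m true false).flatMap (psi 1)) ((wd σ m false false).flatMap (psi 1)) :=
    h3.1
  have h5 := h4.filter (Fx m)
  rw [hX σ τ m hσ true, hX σ τ m hσ false] at h5
  apply hLE
  refine hL β hG m τ hT 0 (fun i => sep (i + (m + 2))) (fun i => pin (i + (m + 2)))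
    (fun i => con (i + (m + 1))) ?_ h5.symm
  have hinj : ∀ a b : ℕ, Function.Injective (fun i : ℕ => 5 * (i + a) + b) := by
    intro a b i j h
    simp only at h
    omega
  refine List.nodup_cons.2 ⟨?_, List.nodup_append.2 ⟨List.nodup_range.map (hinj _ _),
    List.nodup_append.2 ⟨List.nodup_range.map (hinj _ _), List.nodup_range.map (hinj _ _), ?_⟩, ?_⟩⟩
  · simp only [List.mem_append, List.mem_map, sep, pin, con]
    rintro (⟨i, _, h⟩ | ⟨i, _, h⟩ | ⟨i, _, h⟩) <;> omega
  · intro a ha b hb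
    simp only [List.mem_map, pin, con] at ha hb
    obtain ⟨i, _, rfl⟩ := ha
    obtain ⟨j, _, rfl⟩ := hb
    omega
  · intro a ha b hb
    simp only [List.mem_append, List.mem_map, pin, con, sep] at ha hb
    obtain ⟨i, _, rfl⟩ := ha
    rcases hb with ⟨j, _, rfl⟩ | ⟨j, _, rfl⟩ <;> omega

end Pool.Agent.MWLE.H62
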